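import Pool.Agent.Lib_helper52.EPS.Defs

set_option autoImplicit false

namespace Pool.Agent.EPS

open MeasureTheory Set Filter Topology

theorem nice_bdc {a b m M : ℝ} {f : ℝ → ℝ} (h : Nice a b m M f) : Bdc f := by
  classical
  refine ⟨?_, fun x => ?_, ⟨max M 0, fun x => ?_⟩, ⟨Icc a b, isCompact_Icc, h.off⟩⟩
  · have e : f = (Icc a b).piecewise f (fun _ => 0) := by
      funext x
      by_cases hx : x ∈ Icc a b
      · rw [piecewise_eq_of_mem _ _ _ hx]
      · rw [piecewise_eq_of_notMem _ _ _ hx, h.off x hx]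
    rw [e]
    exact ContinuousOn.measurable_piecewise h.cont continuousOn_const measurableSet_Icc
  · by_cases hx : x ∈ Icc a b
    · exact le_trans h.m0.le (h.lo x hx)
    · exact (h.off x hx).ge
  · by_cases hx : x ∈ Icc a b
    · exact le_max_of_le_left (h.hi x hx)
    · exact le_max_of_le_right (h.off x hx).le

theorem a5_int {a b m M : ℝ} {f : ℝ → ℝ} (h : Nice a b m M f) : Integrable f := by
  have h1 : IntegrableOn f (Icc a b) := h.cont.integrableOn_Icc
  refine (integrableOn_iff_integrable_of_support_subset ?_).1 h1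
  intro x hx
  by_contra hn
  exact hx (h.off x hn)

/-- the convolution of nice densities is positive in the interior of its support -/
theorem cv_pos {a b m M a' b' m' M' : ℝ} {f g : ℝ → ℝ} (hf : Nice a b m M f)
    (hg : Nice a' b' m' M' g) (t : ℝ) (ht : t ∈ Ioo (a + a') (b + b')) : 0 < cv f g t := by
  have Bf := nice_bdc hf
  have Bg := nice_bdc hg
  obtain ⟨Mg, hMg⟩ := Bg.bd
  have hnn : 0 ≤ fun x => f x * g (t - x) := fun x => mul_nonneg (Bf.nn x) (Bg.nn _)
  have hmeas : Measurable fun x => g (t - x) := Bg.meas.comp (by fun_prop)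
  have hint : Integrable fun x => f x * g (t - x) := by
    refine (a5_int hf).mul_bdd (c := Mg) hmeas.aestronglyMeasurable
      (Eventually.of_forall fun x => ?_)
    rw [Real.norm_eq_abs, abs_of_nonneg (Bg.nn _)]
    exact hMg _
  unfold cv
  rw [integral_pos_iff_support_of_nonneg hnn hint]
  have hsub : Icc (max a (t - b')) (min b (t - a')) ⊆
      Function.support fun x => f x * g (t - x) := by
    intro x hx
    have h1 : x ∈ Icc a b := ⟨le_trans (le_max_left _ _) hx.1, le_trans hx.2 (min_le_left _ _)⟩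
    have h2 : t - x ∈ Icc a' b' := by
      have := le_trans (le_max_right _ _) hx.1
      have := le_trans hx.2 (min_le_right _ _)
      constructor <;> linarith
    have h3 : 0 < f x := lt_of_lt_of_le hf.m0 (hf.lo x h1)
    have h4 : 0 < g (t - x) := lt_of_lt_of_le hg.m0 (hg.lo _ h2)
    exact (mul_pos h3 h4).ne'
  refine lt_of_lt_of_le ?_ (measure_mono hsub)
  rw [Real.volume_Icc, ENNReal.ofReal_pos, sub_pos]
  have hab := hf.ab
  have hab' := hg.ab
  obtain ⟨ht1, ht2⟩ := ht
  refine max_lt (lt_min hab ?_) (lt_min ?_ ?_) <;> linarith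

end Pool.Agent.EPS
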